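import Mathlib
import Pool.Agent.H71.TMS3

namespace Pool.Agent.Results.MP_a4feb0_gt.Counter

open Filter Topology

/-- There is a totally minimal solvable Hausdorff topological group of countable tightness that is
not metrizable. -/
theorem result :
    ∃ (G : Type) (_ : Group G) (_ : TopologicalSpace G), IsTopologicalGroup G ∧ T2Space G ∧
      (∀ (N : Subgroup G) [N.Normal], IsClosed (N : Set G) →
        ∀ σ : TopologicalSpace (G ⧸ N), @IsTopologicalGroup (G ⧸ N) σ _ → @T2Space (G ⧸ N) σ →
          QuotientGroup.instTopologicalSpace N ≤ σ →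
          σ = QuotientGroup.instTopologicalSpace N) ∧
      Group.IsSolvable G ∧
      (∀ (A : Set G) (x : G), x ∈ closure A → ∃ B ⊆ A, B.Countable ∧ x ∈ closure B) ∧
      ¬ TopologicalSpace.MetrizableSpace G := by
  refine ⟨H71.TMS.G, inferInstance, H71.TMS.top, inferInstance, inferInstance,
    fun N _ _ σ h1 h2 le => ?_, inferInstance, H71.TMS.tight, H71.TMS.not_met⟩
  clear * - h1 h2 le
  revert σ
  have c := QuotientGroup.continuous_mk (N := N)
  have t := c.tendsto 1
  have i : IsTopologicalGroup (H71.TMS.G ⧸ N) := inferInstance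
  intro σ h1 h2 le
  refine h1.ext i (le_antisymm (fun U hU => ?_) (nhds_mono le))
  exact mem_of_superset (@H71.TMS.opn _ _ (QuotientGroup.mk' N) σ h1 h2 (continuous_le_rng le c)
    (QuotientGroup.mk'_surjective N) _ (t hU)) (Set.image_preimage_subset _ _)

end Pool.Agent.Results.MP_a4feb0_gt.Counter
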